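import Pool.Agent.W2helper42.HL.Stm2
import Pool.Agent.W2helper76.HL.RSq

/-!
Project HL: an equation `∑ x_(i l) = ∑ x_(j l)` by additive quadruples.
-/

set_option autoImplicit false

namespace Pool.Agent.W2helper71.HL

open UpperHalfPlane H294ZP MvPolynomial
open Pool.Agent.W2helper42.HL
open Pool.Agent.W2helper76.HL (isog_alg mem_fld algebraic_of_mem algebraic_mono fld_le fld_left mem_right)

/-- `m + 1` algebraically independent numbers are not algebraic over `m` numbers -/
theorem not_all (h1 : A_SUM_LE) (h2 : A_SUM_GE) {ι : Type} [Finite ι] {K : Subfield ℂ}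
    {a : ι → ℂ} {n m : ℕ} (hn : m < n) {t : Fin n → ℂ} (ht : AlgebraicIndependent (fld K a) t)
    (s : Fin m → ℂ) (h : ∀ j, IsAlgebraic (fld K (Sum.elim a s)) (t j)) : False := by
  have e1 := h1 ι (Fin n) K a t m s h
  have e2 := h2 ι (Fin n) K a t n t ht fun j => mem_right a t j
  omega

/-- two linear forms in the masks which are linearly independent -/
theorem forms (h1 : A_SUM_LE) (h2 : A_SUM_GE) {ι : Type} [Finite ι] {K : Subfield ℂ}
    {a : ι → ℂ} {M : Type} [Fintype M] [DecidableEq M] {N n : ℕ} (hN : N = n + 1) (e : M ≃ Fin N)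
    {t : Fin N → ℂ} (ht : AlgebraicIndependent (fld K a) t) (c c' : M → ℤ) (α α' : ℂ)
    (hα : α ∈ fld K a) (hα' : α' ∈ fld K a) {μ ν : M} (hμν : μ ≠ ν)
    (hD : c μ * c' ν - c ν * c' μ ≠ 0) :
    ¬ IsAlgebraic (fld K (Sum.elim a (fun _ : Fin 1 => ∑ l, (c l : ℂ) * t (e l) + α)))
      (∑ l, (c' l : ℂ) * t (e l) + α') := by
  intro hcon
  set u := ∑ l, (c l : ℂ) * t (e l) + α with hu
  set u' := ∑ l, (c' l : ℂ) * t (e l) + α' with hu'
  -- the other masks, and `u` in place of the mask `ν`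
  have hcard : Fintype.card {l : M // l ≠ μ} = n := by
    have h3 := Fintype.card_congr e
    rw [Fintype.card_fin] at h3
    have h4 : Fintype.card {l : M // l ≠ μ} = Fintype.card M - 1 := by
      rw [Fintype.card_subtype_compl, Fintype.card_subtype_eq]
    omega
  let e' : Fin n ≃ {l : M // l ≠ μ} := (Fintype.equivFinOfCardEq hcard).symm
  let s : Fin n → ℂ := fun j => if (e' j).1 = ν then u else t (e (e' j).1)
  set F := fld K (Sum.elim a s) with hF
  have hs : ∀ j, s j ∈ F := fun j => mem_right a s j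
  have huF : u ∈ F := by
    have h3 := hs (e'.symm ⟨ν, hμν.symm⟩)
    simpa [s] using h3
  have hoth : ∀ l, l ≠ μ → l ≠ ν → t (e l) ∈ F := by
    intro l hl hl'
    have h3 := hs (e'.symm ⟨l, hl⟩)
    simpa [s, hl'] using h3
  have haF : fld K a ≤ F := fld_left a s
  have hu'F : IsAlgebraic F u' := by
    refine algebraic_mono (fld_le ?_) hcon
    rintro (l | l)
    · exact mem_fld K (Sum.elim a s) (Sum.inl l)
    · exact huF
  set G := algebraicClosure F ℂ with hG
  have hGF : ∀ x, x ∈ F → x ∈ G := fun x hx => by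
    rw [hG, mem_algebraicClosure_iff]
    exact algebraic_of_mem F hx
  have huG : u ∈ G := hGF u huF
  have hu'G : u' ∈ G := by
    rw [hG, mem_algebraicClosure_iff]
    exact hu'F
  have hint : ∀ n : ℤ, (n : ℂ) ∈ G := fun n => intCast_mem G n
  -- the two forms without the other masks
  have hsplit : ∀ c : M → ℤ, ∑ l, (c l : ℂ) * t (e l) = c μ * t (e μ) + c ν * t (e ν) +
      ∑ l ∈ (Finset.univ.erase μ).erase ν, (c l : ℂ) * t (e l) := by
    intro c
    rw [← Finset.add_sum_erase _ _ (Finset.mem_univ μ),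
      ← Finset.add_sum_erase _ _ (Finset.mem_erase.2 ⟨hμν.symm, Finset.mem_univ ν⟩)]
    ring
  have hrest : ∀ c : M → ℤ, ∑ l ∈ (Finset.univ.erase μ).erase ν, (c l : ℂ) * t (e l) ∈ G := by
    intro c
    refine sum_mem fun l hl => mul_mem (hint _) (hGF _ (hoth l ?_ ?_))
    · exact Finset.ne_of_mem_erase (Finset.mem_of_mem_erase hl)
    · exact Finset.ne_of_mem_erase hl
  have r1 : (c μ : ℂ) * t (e μ) + c ν * t (e ν) ∈ G := by
    have h3 : (c μ : ℂ) * t (e μ) + c ν * t (e ν) =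
        u - α - ∑ l ∈ (Finset.univ.erase μ).erase ν, (c l : ℂ) * t (e l) := by
      rw [hu, hsplit c]; ring
    rw [h3]
    exact sub_mem (sub_mem huG (hGF _ (haF hα))) (hrest c)
  have r2 : (c' μ : ℂ) * t (e μ) + c' ν * t (e ν) ∈ G := by
    have h3 : (c' μ : ℂ) * t (e μ) + c' ν * t (e ν) =
        u' - α' - ∑ l ∈ (Finset.univ.erase μ).erase ν, (c' l : ℂ) * t (e l) := by
      rw [hu', hsplit c']; ring
    rw [h3]
    exact sub_mem (sub_mem hu'G (hGF _ (haF hα'))) (hrest c')
  have hD' : ((c μ * c' ν - c ν * c' μ : ℤ) : ℂ) ≠ 0 := by exact_mod_cast hD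
  have t1 : t (e μ) ∈ G := by
    have h3 : t (e μ) = ((c' ν : ℂ) * ((c μ : ℂ) * t (e μ) + c ν * t (e ν)) -
        (c ν : ℂ) * ((c' μ : ℂ) * t (e μ) + c' ν * t (e ν))) / ((c μ * c' ν - c ν * c' μ : ℤ) : ℂ) := by
      rw [eq_div_iff hD']; push_cast; ring
    rw [h3]
    exact div_mem (sub_mem (mul_mem (hint _) r1) (mul_mem (hint _) r2)) (hint _)
  have t2 : t (e ν) ∈ G := by
    have h3 : t (e ν) = ((c μ : ℂ) * ((c' μ : ℂ) * t (e μ) + c' ν * t (e ν)) -
        (c' μ : ℂ) * ((c μ : ℂ) * t (e μ) + c ν * t (e ν))) / ((c μ * c' ν - c ν * c' μ : ℤ) : ℂ) := by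
      rw [eq_div_iff hD']; push_cast; ring
    rw [h3]
    exact div_mem (sub_mem (mul_mem (hint _) r2) (mul_mem (hint _) r1)) (hint _)
  refine not_all h1 h2 (by omega : n < N) ht s fun j => ?_
  rw [← mem_algebraicClosure_iff, ← hF, ← hG]
  obtain ⟨l, rfl⟩ := e.surjective j
  by_cases h3 : l = μ
  · rw [h3]; exact t1
  · by_cases h4 : l = ν
    · rw [h4]; exact t2
    · exact hGF _ (hoth l h3 h4)

/-- the coefficients of the masks -/
def coef {r : ℕ} : Om r → Fin r ⊕ Fin 2 → ℤ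
  | Sum.inl l, μ => if μ = Sum.inl l then 1 else 0
  | Sum.inr s, Sum.inl l => if (l : ℕ) < (s.2 : ℕ) then -1 else 0
  | Sum.inr s, Sum.inr b => if b = s.1 then 1 else 0

/-- the constant terms -/
noncomputable def cst {ι : Type} {r : ℕ} (ij : Fin 2 → Fin r → ι) (x : ι → ℂ) : Om r → ℂ
  | Sum.inl _ => 0
  | Sum.inr s => ∑ l : Fin r, if (l : ℕ) < (s.2 : ℕ) then x (ij s.1 l) else 0

/-- a nonzero minor -/
theorem minor {r : ℕ} (s s' : Om r) (h : s ≠ s') : ∃ μ ν : Fin r ⊕ Fin 2, μ ≠ ν ∧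
    coef s μ * coef s' ν - coef s ν * coef s' μ ≠ 0 := by
  rcases s with l | ⟨b, l⟩ <;> rcases s' with l' | ⟨b', l'⟩
  · have hl : l ≠ l' := fun h' => h (by rw [h'])
    refine ⟨Sum.inl l, Sum.inl l', fun h' => hl (Sum.inl.inj h'), ?_⟩
    simp [coef, hl, hl.symm]
  · refine ⟨Sum.inl l, Sum.inr b', by simp, ?_⟩
    simp [coef]
  · refine ⟨Sum.inr b, Sum.inl l', by simp, ?_⟩
    simp [coef]
  · by_cases hb : b = b'
    · subst hb
      have hl : (l : ℕ) ≠ (l' : ℕ) := fun h' => h (by rw [Fin.ext h'])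
      rcases Nat.lt_or_gt_of_ne hl with hlt | hlt
      · refine ⟨Sum.inr b, Sum.inl ⟨l, by omega⟩, by simp, ?_⟩
        simp [coef, hlt]
      · refine ⟨Sum.inr b, Sum.inl ⟨l', by omega⟩, by simp, ?_⟩
        simp [coef, hlt]
    · refine ⟨Sum.inr b, Sum.inr b', fun h' => hb (Sum.inr.inj h'), ?_⟩
      have hb' : b' ≠ b := fun h' => hb h'.symm
      simp [coef, hb, hb']

/-- partial sums -/
theorem psum {r : ℕ} (f : Fin (r + 1) → ℂ) (g : Fin r → ℂ)
    (h : ∀ l : Fin r, f l.succ = f l.castSucc + g l) (l : Fin (r + 1)) :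
    f l = f 0 + ∑ l' : Fin r, if (l' : ℕ) < (l : ℕ) then g l' else 0 := by
  induction l using Fin.induction with
  | zero => simp
  | succ l ih =>
    rw [h, ih, add_assoc]
    congr 1
    have h1 : ∀ l' : Fin r, (if (l' : ℕ) < (l.succ : ℕ) then g l' else 0) =
        (if (l' : ℕ) < (l.castSucc : ℕ) then g l' else 0) + if l' = l then g l' else 0 := by
      intro l'
      rw [Fin.val_succ, Fin.val_castSucc]
      by_cases h2 : l' = l
      · subst h2
        simp
      · have h3 : (l' : ℕ) ≠ (l : ℕ) := fun h' => h2 (Fin.ext h')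
        by_cases h4 : (l' : ℕ) < (l : ℕ)
        · rw [if_pos (by omega), if_pos h4, if_neg h2, add_zero]
        · rw [if_neg (by omega), if_neg h4, if_neg h2, add_zero]
    rw [Finset.sum_congr rfl fun l' _ => h1 l', Finset.sum_add_distrib]
    simp

theorem psum_last {r : ℕ} (f : Fin (r + 1) → ℂ) (g : Fin r → ℂ)
    (h : ∀ l : Fin r, f l.succ = f l.castSucc + g l) :
    f (Fin.last r) = f 0 + ∑ l' : Fin r, g l' := by
  rw [psum f g h]
  congr 1
  refine Finset.sum_congr rfl fun l' _ => ?_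
  rw [if_pos]
  rw [Fin.val_last]
  exact l'.2

/-- the numbering of the masks -/
def fe (r : ℕ) : Fin r ⊕ Fin 2 ≃ Fin (r + 2) := finSumFinEquiv

/-- the new coordinates -/
noncomputable def ww {ι : Type} {r : ℕ} (ij : Fin 2 → Fin r → ι) (x : ι → ℂ)
    (t : Fin (r + 2) → ℂ) (s : Om r) : ℂ :=
  ∑ l, (coef s l : ℂ) * t (fe r l) + cst ij x s

section ww

variable {ι : Type} {r : ℕ} (ij : Fin 2 → Fin r → ι) (x : ι → ℂ) (t : Fin (r + 2) → ℂ)

theorem ww_inl (l : Fin r) : ww ij x t (Sum.inl l) = t (fe r (Sum.inl l)) := by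
  simp [ww, coef, cst]

theorem ww_inr (b : Fin 2) (l : Fin (r + 1)) : ww ij x t (Sum.inr (b, l)) =
    t (fe r (Sum.inr b)) +
      ∑ l' : Fin r, if (l' : ℕ) < (l : ℕ) then x (ij b l') - t (fe r (Sum.inl l')) else 0 := by
  have h1 : ∀ l' : Fin r, (if (l' : ℕ) < (l : ℕ) then x (ij b l') - t (fe r (Sum.inl l'))
      else 0) = (if (l' : ℕ) < (l : ℕ) then x (ij b l') else 0) +
        ((if (l' : ℕ) < (l : ℕ) then (-1 : ℤ) else 0 : ℤ) : ℂ) * t (fe r (Sum.inl l')) := by
    intro l'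
    split_ifs
    · push_cast; ring
    · push_cast; ring
  rw [Finset.sum_congr rfl fun l' _ => h1 l', Finset.sum_add_distrib, ww, Fintype.sum_sum_type]
  have h2 : ∑ b' : Fin 2, ((coef (Sum.inr (b, l)) (Sum.inr b' : Fin r ⊕ Fin 2) : ℤ) : ℂ) *
      t (fe r (Sum.inr b')) = t (fe r (Sum.inr b)) := by
    simp [coef]
  rw [h2]
  simp only [coef, cst]
  ring

theorem ww_zero (b : Fin 2) : ww ij x t (Sum.inr (b, 0)) = t (fe r (Sum.inr b)) := by
  rw [ww_inr]
  simp

theorem ww_succ (b : Fin 2) (l : Fin r) : ww ij x t (Sum.inr (b, l.succ)) =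
    ww ij x t (Sum.inr (b, l.castSucc)) + (x (ij b l) - t (fe r (Sum.inl l))) := by
  rw [ww_inr, ww_inr, add_assoc]
  congr 1
  have h1 : ∀ l' : Fin r, (if (l' : ℕ) < (l.succ : ℕ) then x (ij b l') -
      t (fe r (Sum.inl l')) else 0) =
      (if (l' : ℕ) < (l.castSucc : ℕ) then x (ij b l') - t (fe r (Sum.inl l')) else 0) +
        if l' = l then x (ij b l') - t (fe r (Sum.inl l')) else 0 := by
    intro l'
    rw [Fin.val_succ, Fin.val_castSucc]
    by_cases h2 : l' = l
    · subst h2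
      simp
    · have h3 : (l' : ℕ) ≠ (l : ℕ) := fun h' => h2 (Fin.ext h')
      by_cases h4 : (l' : ℕ) < (l : ℕ)
      · rw [if_pos (by omega), if_pos h4, if_neg h2, add_zero]
      · rw [if_neg (by omega), if_neg h4, if_neg h2, add_zero]
  rw [Finset.sum_congr rfl fun l' _ => h1 l', Finset.sum_add_distrib]
  simp

end ww

/-- **N_CH** -/
theorem n_ch (hJ : JF) (hA : AF) (hR : R_MAIN) : N_CH := by
  classical
  intro ι _ C k r i j hC hEv
  obtain ⟨hJP, hJR, -⟩ := hJ
  obtain ⟨-, -, -, -, hLE, hGE, hNEW⟩ := hA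
  obtain ⟨S, hSc, hCS⟩ := hC
  set ij : Fin 2 → Fin r → ι := ![i, j] with hij
  have hij0 : ij 0 = i := rfl
  have hij1 : ij 1 = j := rfl
  refine hR ι (Om r) (Om r) _ _ k (k + 2 * r) (r + 2) id ∅ (fun _ => True) S hSc ?_ ?_ ?_ ?_ hEv
  · rw [Nat.card_eq_fintype_card]
    simp only [Om, Fintype.card_sum, Fintype.card_prod, Fintype.card_fin]
    ring
  · exact fun s => Or.inl ⟨s, rfl⟩
  · intro p hp
    simp at hp
  intro K hK hSK
  refine ⟨?_, fun _ _ _ _ => trivial, ?_, ?_⟩
  · -- closed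
    obtain ⟨F, hF⟩ := hCS K hK hSK
    let XP : Om r → MvPolynomial (ι ⊕ Om r) K := fun s => X (Sum.inr s)
    let G : Fin 2 → Fin r → MvPolynomial (ι ⊕ Om r) K := fun b l =>
      XP (Sum.inr (b, l.succ)) + XP (Sum.inl l) - (XP (Sum.inr (b, l.castSucc)) + X (Sum.inl (ij b l)))
    let H : MvPolynomial (ι ⊕ Om r) K := XP (Sum.inr (0, Fin.last r)) + XP (Sum.inr (1, 0)) -
      (XP (Sum.inr (1, Fin.last r)) + XP (Sum.inr (0, 0)))
    refine ⟨(rename Sum.inl '' F) ∪ (Set.range fun p : Fin 2 × Fin r => G p.1 p.2) ∪ {H}, ?_⟩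
    ext z
    have hG : ∀ b l, aeval z (G b l) = 0 ↔ z (Sum.inr (Sum.inr (b, l.succ))) + z (Sum.inr (Sum.inl l)) =
        z (Sum.inr (Sum.inr (b, l.castSucc))) + z (Sum.inl (ij b l)) := by
      intro b l
      simp only [G, XP, map_sub, map_add, aeval_X]
      exact sub_eq_zero
    have hH : aeval z H = 0 ↔ z (Sum.inr (Sum.inr (0, Fin.last r))) + z (Sum.inr (Sum.inr (1, 0))) =
        z (Sum.inr (Sum.inr (1, Fin.last r))) + z (Sum.inr (Sum.inr (0, 0))) := by
      simp only [H, XP, map_sub, map_add, aeval_X]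
      exact sub_eq_zero
    have hFz : (fun s => z (Sum.inl s)) ∈ C ↔ ∀ f ∈ F, aeval z (rename Sum.inl f) = 0 := by
      rw [hF]
      simp only [aeval_rename]
      rfl
    constructor
    · rintro ⟨hz, h1, h2, h3⟩ g ((⟨f, hf, rfl⟩ | ⟨⟨b, l⟩, rfl⟩) | rfl)
      · exact hFz.1 hz f hf
      · rw [hG]
        fin_cases b
        · exact h1 l
        · exact h2 l
      · exact hH.2 h3
    · intro hz
      refine ⟨hFz.2 fun f hf => hz _ (Or.inl (Or.inl ⟨f, hf, rfl⟩)), fun l => ?_, fun l => ?_, ?_⟩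
      · exact (hG 0 l).1 (hz _ (Or.inl (Or.inr ⟨(0, l), rfl⟩)))
      · exact (hG 1 l).1 (hz _ (Or.inl (Or.inr ⟨(1, l), rfl⟩)))
      · exact hH.1 (hz _ (Or.inr rfl))
  · -- lifts
    rintro a ⟨haC, hsum⟩
    obtain ⟨t, ht⟩ := hNEW ι K hK a (r + 2)
    set w : Om r → ℂ := ww ij a t with hw
    have hc : ∀ s, cst ij a s ∈ fld K a := by
      rintro (l | s)
      · exact zero_mem _
      · refine sum_mem fun l _ => ?_
        split_ifs
        · exact mem_fld K a _
        · exact zero_mem _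
    have hpw : ∀ s s', s ≠ s' → ¬ IsAlgebraic (fld K (Sum.elim a (fun _ : Fin 1 => w s))) (w s') := by
      intro s s' hss
      obtain ⟨μ, ν, hμν, hD⟩ := minor s s' hss
      exact forms hLE hGE (n := r + 1) rfl (fe r) ht (coef s) (coef s') _ _ (hc s) (hc s') hμν hD
    have htr : ∀ s, ¬ IsAlgebraic (fld K a) (w s) := by
      intro s h
      obtain ⟨s', hs'⟩ : ∃ s' : Om r, s' ≠ s := by
        by_cases h0 : s = Sum.inr (0, 0)
        · exact ⟨Sum.inr (1, 0), by rw [h0]; simp⟩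
        · exact ⟨Sum.inr (0, 0), fun h' => h0 h'.symm⟩
      exact hpw s' s hs' (algebraic_mono (fld_left a _) h)
    refine ⟨w, ⟨haC, ?_, ?_, ?_⟩, by simp, trivial, ?_, ?_, ?_, ?_⟩
    · intro l
      simp only [Sum.elim_inr, Sum.elim_inl]
      rw [hw, ww_succ, ww_inl, hij0]
      ring
    · intro l
      simp only [Sum.elim_inr, Sum.elim_inl]
      rw [hw, ww_succ, ww_inl, hij1]
      ring
    · simp only [Sum.elim_inr]
      have e0 := psum_last (fun l => w (Sum.inr (0, l))) (fun l => a (ij 0 l) -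
        t (fe r (Sum.inl l))) fun l => ww_succ ij a t 0 l
      have e1 := psum_last (fun l => w (Sum.inr (1, l))) (fun l => a (ij 1 l) -
        t (fe r (Sum.inl l))) fun l => ww_succ ij a t 1 l
      simp only [Finset.sum_sub_distrib] at e0 e1
      rw [hij0] at e0
      rw [hij1] at e1
      rw [e0, e1, hsum]
      ring
    · refine hGE ι _ K a w (r + 2) t ht fun j => ?_
      obtain ⟨l, rfl⟩ := (fe r).surjective j
      rcases l with l | b
      · have h3 := mem_right (K := K) a w (Sum.inl l)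
        rw [hw, ww_inl] at h3
        exact h3
      · have h3 := mem_right (K := K) a w (Sum.inr (b, 0))
        rw [hw, ww_zero] at h3
        exact h3
    · intro s hsp
      exact htr s ((hJR.2.2.2.2.2 _ hsp).extendScalars (algebraMap ℚ (fld K a)).injective)
    · intro s s' hss hiso
      refine hpw s s' hss ?_
      exact isog_alg hJP hK _ hiso (mem_right a (fun _ : Fin 1 => w s) 0)
    · intro l s hiso
      exact htr s (isog_alg hJP hK _ hiso (mem_fld K a l))
  · -- the converse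
    rintro x v ⟨hxC, h1, h2, h3⟩ - -
    left
    simp only [Sum.elim_inr, Sum.elim_inl] at h1 h2 h3 hxC
    have hs : ∀ b (l : Fin r), v (Sum.inr (b, l.succ)) = v (Sum.inr (b, l.castSucc)) +
        (x (ij b l) - v (Sum.inl l)) := by
      intro b l
      fin_cases b
      · exact by
          have := h1 l
          show v (Sum.inr (0, l.succ)) = v (Sum.inr (0, l.castSucc)) + (x (i l) - v (Sum.inl l))
          linear_combination this
      · exact by
          have := h2 l
          show v (Sum.inr (1, l.succ)) = v (Sum.inr (1, l.castSucc)) + (x (j l) - v (Sum.inl l))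
          linear_combination this
    refine ⟨⟨hxC, ?_⟩, ?_⟩
    · have e0 := psum_last (fun l => v (Sum.inr (0, l))) _ fun l => hs 0 l
      have e1 := psum_last (fun l => v (Sum.inr (1, l))) _ fun l => hs 1 l
      simp only [Finset.sum_sub_distrib] at e0 e1
      rw [hij0] at e0
      rw [hij1] at e1
      linear_combination h3 - e0 + e1
    · let m : Fin r ⊕ Fin 2 → ℂ := Sum.elim (fun l => v (Sum.inl l)) fun b => v (Sum.inr (b, 0))
      let t : Fin (r + 2) → ℂ := fun l => m ((fe r).symm l)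
      refine hLE ι _ K x v (r + 2) t fun s => algebraic_of_mem _ ?_
      have hm : ∀ l, m l ∈ fld K (Sum.elim x t) := by
        intro l
        have h4 := mem_right (K := K) x t (fe r l)
        simpa [t] using h4
      rcases s with l | ⟨b, l⟩
      · exact hm (Sum.inl l)
      · induction l using Fin.induction with
        | zero => exact hm (Sum.inr b)
        | succ l ih =>
          rw [hs]
          exact add_mem ih (sub_mem (mem_fld K (Sum.elim x t) (Sum.inl _)) (hm (Sum.inl l)))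

end Pool.Agent.W2helper71.HL
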